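import Pool.Agent.Helper74.RN.St

/-! Project RN, module COL: colours of a complete multipartite graph. -/

set_option autoImplicit false

namespace Pool.Agent.Helper88.RN

open Pool.Agent.Helper74 Pool.Agent.Helper74.RN

theorem hCOL : StCOL := by
  classical
  intro n Γ hC
  -- the set of active vertices not adjacent to x
  let S : Fin n → Finset (Fin n) := fun x =>
    Finset.univ.filter (fun y => (∃ t, Γ.Adj y t) ∧ ¬ Γ.Adj x y)
  let act : Fin n → Bool := fun x => decide (∃ y, Γ.Adj x y)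
  let col : Fin n → ℕ := fun x => if h : (S x).Nonempty then ((S x).min' h : ℕ) else n
  have hact : ∀ x, act x = true ↔ ∃ y, Γ.Adj x y := fun x => by simp [act]
  have hmem : ∀ x y, y ∈ S x ↔ (∃ t, Γ.Adj y t) ∧ ¬ Γ.Adj x y := fun x y => by simp [S]
  have hself : ∀ x, (∃ t, Γ.Adj x t) → x ∈ S x := fun x hx => (hmem x x).2 ⟨hx, Γ.loopless.irrefl x⟩
  have hSeq : ∀ x y, (∃ t, Γ.Adj x t) → (∃ t, Γ.Adj y t) → ¬ Γ.Adj x y → S x ⊆ S y := by
    intro x y hx hy hxy z hz
    obtain ⟨hz1, hz2⟩ := (hmem x z).1 hz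
    refine (hmem y z).2 ⟨hz1, ?_⟩
    intro hyz
    rcases hC y z x hyz hx with h | h
    · exact hxy h
    · exact hz2 h
  have hcol : ∀ x, (∃ t, Γ.Adj x t) → ∃ z ∈ S x, col x = (z : ℕ) := by
    intro x hx
    have hne : (S x).Nonempty := ⟨x, hself x hx⟩
    exact ⟨(S x).min' hne, (S x).min'_mem hne, by simp only [col]; rw [dif_pos hne]⟩
  refine ⟨act, col, ?_⟩
  intro x y
  constructor
  · intro hxy
    have hx : ∃ t, Γ.Adj x t := ⟨y, hxy⟩
    have hy : ∃ t, Γ.Adj y t := ⟨x, hxy.symm⟩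
    refine ⟨(hact x).2 hx, (hact y).2 hy, ?_⟩
    intro he
    obtain ⟨z, hz, ez⟩ := hcol x hx
    obtain ⟨z', hz', ez'⟩ := hcol y hy
    have hzz : z = z' := by
      apply Fin.ext
      rw [← ez, ← ez', he]
    subst hzz
    obtain ⟨hz1, hz2⟩ := (hmem x z).1 hz
    obtain ⟨_, hz3⟩ := (hmem y z).1 hz'
    rcases hC x y z hxy hz1 with h | h
    · exact hz2 h.symm
    · exact hz3 h.symm
  · rintro ⟨h1, h2, h3⟩
    have hx := (hact x).1 h1
    have hy := (hact y).1 h2
    by_contra hxy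
    apply h3
    have hyx : ¬ Γ.Adj y x := fun h => hxy h.symm
    have hS : S x = S y := Finset.Subset.antisymm (hSeq x y hx hy hxy) (hSeq y x hy hx hyx)
    simp only [col, hS]

end Pool.Agent.Helper88.RN
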